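import Pool.Agent.H85.Online.Prob

/-!
Online colouring algorithms with lookahead: the combinatorial part of the lower bound.
-/

set_option autoImplicit false

namespace Pool.Agent.H85.Online

open Finset

/-- A colouring algorithm for graphs on the vertices `0, ..., n-1` which colours the vertices in
this order, irrevocably, with lookahead `L`: the colouring `col G` of `G` is proper, and the colour
of the vertex `t` depends only on the graph induced on the vertices `≤ t + L`. There is no
restriction on how the colour is computed from this graph. -/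
structure OnlineColouring (n L : ℕ) where
  col : SimpleGraph (Fin n) → Fin n → ℕ
  proper : ∀ (G : SimpleGraph (Fin n)) (u v : Fin n), G.Adj u v → col G u ≠ col G v
  online : ∀ (G H : SimpleGraph (Fin n)) (t : Fin n),
    (∀ u v : Fin n, (u : ℕ) ≤ t + L → (v : ℕ) ≤ t + L → (G.Adj u v ↔ H.Adj u v)) →
      col G t = col H t

/-- the number of colours used on the graph `G` -/
def OnlineColouring.numColours {n L : ℕ} (A : OnlineColouring n L) (G : SimpleGraph (Fin n)) : ℕ :=
  (Finset.univ.image (A.col G)).card

variable {n L : ℕ} (A : OnlineColouring n L) (K : ℕ)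

/-- the block of a vertex: blocks have size `L + 1` and are numbered from `K + 1` on -/
def blk (L K : ℕ) {n : ℕ} (v : Fin n) : ℕ := (v : ℕ) / (L + 1) + K + 1

theorem blk_mono {u v : Fin n} (h : u ≤ v) : blk L K u ≤ blk L K v := by
  unfold blk
  have : (u : ℕ) / (L + 1) ≤ (v : ℕ) / (L + 1) := Nat.div_le_div_right h
  omega

theorem lt_of_blk_lt {u v : Fin n} (h : blk L K u < blk L K v) : u < v := by
  by_contra h'
  have := blk_mono (L := L) K (not_lt.1 h')
  omega

/-- vertices seen when the vertex `t` is coloured lie in the next block at most -/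
theorem blk_seen {t u : Fin n} (h : (u : ℕ) ≤ t + L) : blk L K u ≤ blk L K t + 1 := by
  unfold blk
  have h1 : (u : ℕ) / (L + 1) ≤ ((t : ℕ) + (L + 1)) / (L + 1) :=
    Nat.div_le_div_right (by omega)
  rw [Nat.add_div_right _ (Nat.succ_pos L)] at h1
  simp only [Nat.succ_eq_add_one] at h1
  omega

/-- the part of the colour class of `u` in the blocks before `i` (nothing for `none`) -/
def cls (i : ℕ) (G : SimpleGraph (Fin n)) : Option (Fin n) → Finset (Fin n)
  | none => ∅
  | some u => Finset.univ.filter fun w => blk L K w < i ∧ A.col G w = A.col G u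

/-- `u` lies in a block before `i` -/
def early (L K i : ℕ) {n : ℕ} : Option (Fin n) → Prop
  | none => True
  | some u => blk L K u < i

theorem blk_of_mem_cls {i : ℕ} {G : SimpleGraph (Fin n)} {o : Option (Fin n)} {w : Fin n}
    (h : w ∈ cls A K i G o) : blk L K w < i := by
  cases o with
  | none => simp [cls] at h
  | some u =>
    simp only [cls, Finset.mem_filter] at h
    exact h.2.1

/-- the part of the class does not depend on pairs with a vertex in a block after `i` -/
theorem cls_sup_edge {i : ℕ} {o : Option (Fin n)} (ho : early L K i o) (G : SimpleGraph (Fin n))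
    {x y : Fin n} (hx : i < blk L K x) :
    cls A K i (G ⊔ SimpleGraph.edge x y) o = cls A K i G o := by
  have key : ∀ w : Fin n, blk L K w < i →
      A.col (G ⊔ SimpleGraph.edge x y) w = A.col G w := by
    intro w hw
    refine A.online _ _ _ fun a b ha hb => ?_
    have ha' := blk_seen K ha
    have hb' := blk_seen K hb
    have hax : a ≠ x := by rintro rfl; omega
    have hbx : b ≠ x := by rintro rfl; omega
    rw [SimpleGraph.sup_adj, SimpleGraph.edge_adj]
    constructor
    · rintro (h | ⟨⟨h, _⟩ | ⟨_, h⟩, _⟩)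
      · exact h
      · exact absurd h hax
      · exact absurd h hbx
    · exact Or.inl
  cases o with
  | none => rfl
  | some u =>
    ext w
    simp only [cls, Finset.mem_filter, Finset.mem_univ, true_and]
    refine and_congr_right fun hw => ?_
    rw [key w hw, key u ho]

/-- the pairs inside `T ∪ J` that are not inside `T` -/
def pairs (T J : Finset (Fin n)) : Finset (Sym2 (Fin n)) :=
  ((T ∪ J).offDiag.image Sym2.mk.uncurry) \ (T.offDiag.image Sym2.mk.uncurry)

theorem mem_pairs {T J : Finset (Fin n)} {x y : Fin n} (h : s(x, y) ∈ pairs T J) :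
    x ≠ y ∧ x ∈ T ∪ J ∧ y ∈ T ∪ J ∧ (x ∈ J ∨ y ∈ J) := by
  unfold pairs at h
  rw [Finset.mem_sdiff, Finset.mem_image, Finset.mem_image] at h
  obtain ⟨⟨⟨a, b⟩, hab, he⟩, hn⟩ := h
  have hab' := Finset.mem_offDiag.1 hab
  have hxy : x ≠ y ∧ x ∈ T ∪ J ∧ y ∈ T ∪ J := by
    rcases Sym2.eq_iff.1 he with ⟨h1, h2⟩ | ⟨h1, h2⟩
    · simp only at h1 h2
      subst h1; subst h2
      exact ⟨hab'.2.2, hab'.1, hab'.2.1⟩
    · simp only at h1 h2
      subst h1; subst h2
      exact ⟨hab'.2.2.symm, hab'.2.1, hab'.1⟩
  refine ⟨hxy.1, hxy.2.1, hxy.2.2, ?_⟩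
  by_contra hcon
  push Not at hcon
  apply hn
  refine ⟨(x, y), Finset.mem_offDiag.2 ⟨?_, ?_, hxy.1⟩, rfl⟩
  · rcases Finset.mem_union.1 hxy.2.1 with h | h
    · exact h
    · exact absurd h hcon.1
  · rcases Finset.mem_union.1 hxy.2.2 with h | h
    · exact h
    · exact absurd h hcon.2

theorem card_pairs {T J : Finset (Fin n)} (h : Disjoint T J) :
    2 * (pairs T J).card = J.card * (2 * T.card + J.card - 1) := by
  have h1 : (pairs T J).card + (T.offDiag.image Sym2.mk.uncurry).card
      = ((T ∪ J).offDiag.image Sym2.mk.uncurry).card := by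
    unfold pairs
    rw [Finset.card_sdiff_add_card_eq_card]
    exact Finset.image_subset_image (Finset.offDiag_mono Finset.subset_union_left)
  have h2 := Sym2.two_mul_card_image_offDiag T
  have h3 := Sym2.two_mul_card_image_offDiag (T ∪ J)
  rw [Finset.offDiag_card] at h2 h3
  rw [Finset.card_union_of_disjoint h] at h3
  have h4 : 2 * (pairs T J).card + (T.card * T.card - T.card)
      = (T.card + J.card) * (T.card + J.card) - (T.card + J.card) := by
    rw [← h2, ← h3, ← h1]; ring
  rcases Nat.eq_zero_or_pos J.card with hJ | hJ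
  · rw [hJ] at h4 ⊢
    simp only [add_zero] at h4
    omega
  · obtain ⟨j, hj⟩ := Nat.exists_eq_add_of_le' hJ
    rw [hj] at h4 ⊢
    have e1 : T.card * T.card - T.card + T.card = T.card * T.card :=
      Nat.sub_add_cancel (Nat.le_mul_self _)
    have e2 : (T.card + (j + 1)) * (T.card + (j + 1)) - (T.card + (j + 1)) + (T.card + (j + 1))
        = (T.card + (j + 1)) * (T.card + (j + 1)) := Nat.sub_add_cancel (Nat.le_mul_self _)
    have e3 : 2 * T.card + (j + 1) - 1 = 2 * T.card + j := by omega
    rw [e3]
    nlinarith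

/-- The master estimate: the probability that the part `S` of the class of `o` before the block `i`
satisfies `Φ` and all pairs inside `S ∪ J` not inside `S` are non-edges. -/
theorem master {p : ℝ} (h0 : 0 < p) (h1 : p < 1) {i : ℕ} {o : Option (Fin n)}
    (ho : early L K i o) (J : Finset (Fin n)) (hJ : ∀ x ∈ J, i < blk L K x)
    (Φ : Finset (Fin n) → Prop) (M : ℝ) (hM0 : 0 ≤ M)
    (hM : ∀ T, Disjoint T J → Φ T → (1 - p) ^ (pairs T J).card ≤ M) :
    Prob p (fun G => Φ (cls A K i G o) ∧
      ∀ x ∈ J, ∀ y ∈ cls A K i G o ∪ J, ¬ G.Adj x y) ≤ M := by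
  classical
  rw [Prob_fiber (fun G => cls A K i G o)]
  have hsum : ∑ T : Finset (Fin n), Prob p (fun G => cls A K i G o = T ∧ True) = 1 := by
    rw [← Prob_fiber (fun G => cls A K i G o) (fun _ => True), Prob_true h1]
  rw [← mul_one M, ← hsum, Finset.mul_sum]
  refine Finset.sum_le_sum fun T _ => ?_
  by_cases hT : Φ T ∧ ∃ G, cls A K i G o = T
  · obtain ⟨hΦ, G₀, hG₀⟩ := hT
    have hdisj : Disjoint T J := by
      rw [Finset.disjoint_left]
      intro w hw hwJ
      have a1 := blk_of_mem_cls A K (hG₀ ▸ hw)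
      have a2 := hJ w hwJ
      omega
    have hF := Prob_and_no_edges (p := p) (fun G => cls A K i G o = T) (pairs T J) (by
      intro u v huv
      obtain ⟨hne, _, _, h⟩ := mem_pairs huv
      refine ⟨hne, fun G => ?_⟩
      rcases h with h | h
      · show cls A K i (G ⊔ SimpleGraph.edge u v) o = T ↔ cls A K i G o = T
        rw [cls_sup_edge A K ho G (hJ u h)]
      · show cls A K i (G ⊔ SimpleGraph.edge u v) o = T ↔ cls A K i G o = T
        rw [SimpleGraph.edge_comm, cls_sup_edge A K ho G (hJ v h)])
    have hle : Prob p (fun G => cls A K i G o = T ∧ (Φ (cls A K i G o) ∧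
        ∀ x ∈ J, ∀ y ∈ cls A K i G o ∪ J, ¬ G.Adj x y))
        ≤ Prob p (fun G => cls A K i G o = T ∧ ∀ e ∈ pairs T J, e ∉ G.edgeSet) := by
      refine Prob_mono h0 h1 ?_
      rintro G ⟨hG, -, hno⟩
      refine ⟨hG, ?_⟩
      intro e he
      induction e using Sym2.ind with
      | _ x y =>
      obtain ⟨_, hx, hy, h⟩ := mem_pairs he
      rw [SimpleGraph.mem_edgeSet]
      rw [hG] at hno
      rcases h with h | h
      · exact hno x h y hy
      · intro hadj
        exact hno y h x hx hadj.symm
    refine hle.trans ?_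
    rw [hF]
    have hc : Prob p (fun G => cls A K i G o = T ∧ True) = Prob p (fun G => cls A K i G o = T) :=
      Prob_congr fun G => ⟨fun h => h.1, fun h => ⟨h, trivial⟩⟩
    rw [hc]
    exact mul_le_mul_of_nonneg_right (hM T hdisj hΦ) (Prob_nonneg h0 h1 _)
  · have hz : Prob p (fun G => cls A K i G o = T ∧ (Φ (cls A K i G o) ∧
        ∀ x ∈ J, ∀ y ∈ cls A K i G o ∪ J, ¬ G.Adj x y)) = 0 := by
      unfold Prob
      refine Finset.sum_eq_zero fun G _ => ?_
      rw [if_neg]
      rintro ⟨hG, hΦ, -⟩
      exact hT ⟨hG ▸ hΦ, G, hG⟩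
    rw [hz]
    exact mul_nonneg hM0 (Prob_nonneg h0 h1 _)

end Pool.Agent.H85.Online
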