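import Pool.Agent.H85.Online.Comb

/-!
Online colouring algorithms with lookahead: the deterministic part and the union bound.
-/

set_option autoImplicit false

namespace Pool.Agent.H85.Online

open Finset

variable {n L : ℕ} (A : OnlineColouring n L) (K t j : ℕ)

theorem le_blk {n : ℕ} (v : Fin n) : K + 1 ≤ blk L K v := by
  unfold blk
  rw [add_assoc]
  exact Nat.le_add_left _ _

/-- the vertices in the `K` blocks after the block `i` -/
def window (L K : ℕ) (n : ℕ) (i : ℕ) : Finset (Fin n) :=
  Finset.univ.filter fun v => i < blk L K v ∧ blk L K v ≤ i + K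

/-- the bad event: a large set `J` in a window extends a class part to an independent set of size at
least `t` -/
def Bad (G : SimpleGraph (Fin n)) : Prop :=
  ∃ i ∈ Finset.range (n + K + 2), ∃ o ∈ (Finset.univ : Finset (Option (Fin n))),
    ∃ J ∈ (window L K n i).powerset.filter (fun J => j ≤ J.card),
      early L K i o ∧ (t ≤ (cls A K i G o).card + J.card ∧
        ∀ x ∈ J, ∀ y ∈ cls A K i G o ∪ J, ¬ G.Adj x y)

/-- a vertex with no edge to an old large class part -/
def TypeA (G : SimpleGraph (Fin n)) (v : Fin n) : Prop :=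
  ∃ u ∈ (Finset.univ : Finset (Fin n)), early L K (blk L K v - 1) (some u) ∧
    (t ≤ (cls A K (blk L K v - 1) G (some u)).card ∧
      ∀ x ∈ ({v} : Finset (Fin n)), ∀ y ∈ cls A K (blk L K v - 1) G (some u) ∪ {v}, ¬ G.Adj x y)

/-- the predecessors of `v` in its class -/
def pred (G : SimpleGraph (Fin n)) (v : Fin n) : Finset (Fin n) :=
  Finset.univ.filter fun w => A.col G w = A.col G v ∧ w < v

theorem not_adj_of_col_eq {G : SimpleGraph (Fin n)} {x y : Fin n}
    (h : A.col G x = A.col G y) : ¬ G.Adj x y := fun h' => A.proper G x y h' h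

theorem cls_some_eq {G : SimpleGraph (Fin n)} {v u : Fin n} {i : ℕ} (hi : i ≤ blk L K v)
    (hu : A.col G u = A.col G v) :
    cls A K i G (some u) = (pred A G v).filter (fun w => blk L K w < i) := by
  ext w
  simp only [cls, pred, Finset.mem_filter, Finset.mem_univ, true_and, hu]
  constructor
  · rintro ⟨h1, h2⟩
    exact ⟨⟨h2, lt_of_blk_lt (L := L) K (lt_of_lt_of_le h1 hi)⟩, h1⟩
  · rintro ⟨⟨h1, _⟩, h2⟩
    exact ⟨h2, h1⟩

/-- the common argument: a set `J` of predecessors after block `i` gives the bad event -/
theorem bad_of {G : SimpleGraph (Fin n)} {v : Fin n} {i : ℕ} (hi : i < blk L K v)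
    (J : Finset (Fin n)) (hJ : J ⊆ pred A G v) (hJw : J ⊆ window L K n i) (hj : j ≤ J.card)
    (hcard : t ≤ ((pred A G v).filter (fun w => blk L K w < i)).card + J.card) :
    Bad A K t j G := by
  have hin : i ∈ Finset.range (n + K + 2) := by
    rw [Finset.mem_range]
    have h1 : (v : ℕ) / (L + 1) ≤ v := Nat.div_le_self _ _
    have h2 := v.isLt
    unfold blk at hi
    omega
  have hJc : ∀ x ∈ J, A.col G x = A.col G v := fun x hx => by
    have := hJ hx
    simp only [pred, Finset.mem_filter] at this
    exact this.2.1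
  rcases ((pred A G v).filter (fun w => blk L K w < i)).eq_empty_or_nonempty with he | ⟨u, hu⟩
  · refine ⟨i, hin, none, Finset.mem_univ _, J, ?_, trivial, ?_, ?_⟩
    · rw [Finset.mem_filter, Finset.mem_powerset]
      exact ⟨hJw, hj⟩
    · rw [he] at hcard
      simpa [cls] using hcard
    · intro x hx y hy
      simp only [cls, Finset.empty_union] at hy
      exact not_adj_of_col_eq A ((hJc x hx).trans (hJc y hy).symm)
  · have hu' := Finset.mem_filter.1 hu
    have huc : A.col G u = A.col G v := by
      have := hu'.1
      simp only [pred, Finset.mem_filter] at this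
      exact this.2.1
    have hcls := cls_some_eq A K (G := G) (v := v) hi.le huc
    refine ⟨i, hin, some u, Finset.mem_univ _, J, ?_, hu'.2, ?_, ?_⟩
    · rw [Finset.mem_filter, Finset.mem_powerset]
      exact ⟨hJw, hj⟩
    · rw [hcls]
      exact hcard
    · intro x hx y hy
      rw [Finset.mem_union] at hy
      rcases hy with hy | hy
      · have hyc : A.col G y = A.col G u := by
          simp only [cls, Finset.mem_filter] at hy
          exact hy.2.2
        exact not_adj_of_col_eq A ((hJc x hx).trans (hyc.trans huc).symm)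
      · exact not_adj_of_col_eq A ((hJc x hx).trans (hJc y hy).symm)

/-- outside the bad event, every vertex with many predecessors in its class is of type A -/
theorem typeA_of_late (ht : 1 ≤ t) (hj : 1 ≤ j) (hK : t ≤ K * j) {G : SimpleGraph (Fin n)}
    (hG : ¬ Bad A K t j G) {v : Fin n} (hv : t + 2 * j ≤ (pred A G v).card) :
    TypeA A K t G v := by
  classical
  set m := blk L K v with hm
  have hmK : K + 1 ≤ m := le_blk K v
  have hK1 : 1 ≤ K := by
    rcases Nat.eq_zero_or_pos K with h | h
    · rw [h, zero_mul] at hK; omega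
    · exact h
  set P := pred A G v with hP
  have hPcol : ∀ w ∈ P, A.col G w = A.col G v ∧ w < v := fun w hw => by
    rw [hP] at hw
    simp only [pred, Finset.mem_filter] at hw
    exact hw.2
  have hPblk : ∀ w ∈ P, blk L K w ≤ m := fun w hw => blk_mono K (hPcol w hw).2.le
  by_contra hA
  -- the part before block `m - 1` is small
  have hS : (P.filter (fun w => blk L K w < m - 1)).card < t := by
    by_contra hcon
    push Not at hcon
    apply hA
    have hne : (P.filter (fun w => blk L K w < m - 1)).Nonempty := by
      rw [← Finset.card_pos]; omega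
    obtain ⟨u, hu⟩ := hne
    have hu' := Finset.mem_filter.1 hu
    have huc := (hPcol u hu'.1).1
    have hcls := cls_some_eq A K (G := G) (v := v) (i := m - 1) (by omega) huc
    refine ⟨u, Finset.mem_univ _, hu'.2, ?_, ?_⟩
    · rw [← hm, hcls]
      exact hcon
    · intro x hx y hy
      rw [Finset.mem_singleton] at hx
      subst hx
      rw [← hm, Finset.mem_union, Finset.mem_singleton] at hy
      rcases hy with hy | hy
      · rw [hcls] at hy
        exact not_adj_of_col_eq A (hPcol y (Finset.mem_filter.1 hy).1).1.symm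
      · subst hy
        exact G.irrefl
  -- splitting at a block
  have hsplit : ∀ i, (P.filter (fun w => blk L K w < i)).card
      + (P.filter (fun w => blk L K w = i)).card + (P.filter (fun w => i < blk L K w)).card
      = P.card := by
    intro i
    have h1 := Finset.card_filter_add_card_filter_not (s := P) (fun w => blk L K w < i)
    have h2 := Finset.card_filter_add_card_filter_not
      (s := P.filter (fun w => ¬ blk L K w < i)) (fun w => blk L K w = i)
    rw [Finset.filter_filter, Finset.filter_filter] at h2
    have e1 : P.filter (fun w => ¬ blk L K w < i ∧ blk L K w = i)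
        = P.filter (fun w => blk L K w = i) :=
      Finset.filter_congr fun w _ => by omega
    have e2 : P.filter (fun w => ¬ blk L K w < i ∧ ¬ blk L K w = i)
        = P.filter (fun w => i < blk L K w) :=
      Finset.filter_congr fun w _ => by omega
    rw [e1, e2] at h2
    omega
  by_cases hex : ∃ k, 1 ≤ k ∧ k ≤ K ∧ (P.filter (fun w => blk L K w = m - k)).card < j
  · -- the last small block among the last `K`
    have hex' : ∃ k, 1 ≤ k ∧ (P.filter (fun w => blk L K w = m - k)).card < j := by
      obtain ⟨k, h1, _, h2⟩ := hex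
      exact ⟨k, h1, h2⟩
    set k₀ := Nat.find hex' with hk₀
    obtain ⟨hk1, hksmall⟩ := Nat.find_spec hex'
    rw [← hk₀] at hk1 hksmall
    have hkK : k₀ ≤ K := by
      obtain ⟨k, h1, h2, h3⟩ := hex
      exact (Nat.find_min' hex' ⟨h1, h3⟩).trans h2
    have hs := hsplit (m - k₀)
    refine hG (bad_of A K t j (v := v) (i := m - k₀) (by omega)
      (P.filter (fun w => m - k₀ < blk L K w)) (Finset.filter_subset _ _) ?_ ?_ ?_)
    · intro w hw
      rw [Finset.mem_filter] at hw
      rw [window, Finset.mem_filter]
      have := hPblk w hw.1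
      exact ⟨Finset.mem_univ _, hw.2, by omega⟩
    · rcases Nat.lt_or_ge k₀ 2 with h2 | h2
      · have hk : k₀ = 1 := by omega
        rw [hk] at hs hksmall ⊢
        omega
      · have hnot := Nat.find_min hex' (m := 1) (by omega)
        have hbig : j ≤ (P.filter (fun w => blk L K w = m - 1)).card := by
          by_contra hcon
          exact hnot ⟨le_rfl, by omega⟩
        refine hbig.trans (Finset.card_le_card ?_)
        intro w hw
        rw [Finset.mem_filter] at hw ⊢
        exact ⟨hw.1, by omega⟩
    · rw [← hP]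
      omega
  · -- the last `K` blocks are all large
    push Not at hex
    have hcard : K * j ≤ (P.filter (fun w => m - K - 1 < blk L K w ∧ blk L K w ≤ m - 1)).card := by
      have hmaps : ∀ w ∈ P.filter (fun w => m - K - 1 < blk L K w ∧ blk L K w ≤ m - 1),
          blk L K w ∈ Finset.Ioc (m - K - 1) (m - 1) := fun w hw => by
        rw [Finset.mem_Ioc]
        exact (Finset.mem_filter.1 hw).2
      rw [Finset.card_eq_sum_card_fiberwise hmaps]
      have hc : (Finset.Ioc (m - K - 1) (m - 1)).card = K := by
        rw [Nat.card_Ioc]; omega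
      have e0 : K * j = (Finset.Ioc (m - K - 1) (m - 1)).card • j := by
        rw [hc, smul_eq_mul]
      rw [e0]
      refine Finset.card_nsmul_le_sum _ _ _ fun b hb => ?_
      rw [Finset.mem_Ioc] at hb
      have h1 := hex (m - b) (by omega) (by omega)
      have e : m - (m - b) = b := by omega
      rw [e] at h1
      refine h1.trans (Finset.card_le_card ?_)
      intro w hw
      rw [Finset.mem_filter] at hw
      rw [Finset.mem_filter, Finset.mem_filter]
      exact ⟨⟨hw.1, by omega⟩, hw.2⟩
    refine hG (bad_of A K t j (v := v) (i := m - K - 1) (by omega)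
      (P.filter (fun w => m - K - 1 < blk L K w ∧ blk L K w ≤ m - 1))
      (Finset.filter_subset _ _) ?_ ?_ ?_)
    · intro w hw
      rw [Finset.mem_filter] at hw
      rw [window, Finset.mem_filter]
      exact ⟨Finset.mem_univ _, hw.2.1, by omega⟩
    · exact (Nat.le_mul_of_pos_left j hK1).trans hcard
    · exact (hK.trans hcard).trans (Nat.le_add_left _ _)

/-- each colour has at most `T` vertices with fewer than `T` predecessors -/
theorem card_le (T : ℕ) (G : SimpleGraph (Fin n)) :
    n ≤ A.numColours G * T + (Finset.univ.filter fun v => T ≤ (pred A G v).card).card := by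
  classical
  have h1 := Finset.card_filter_add_card_filter_not (s := (Finset.univ : Finset (Fin n)))
    (fun v => T ≤ (pred A G v).card)
  rw [Finset.card_univ, Fintype.card_fin] at h1
  have h2 : (Finset.univ.filter fun v => ¬ T ≤ (pred A G v).card).card
      ≤ A.numColours G * T := by
    have hmaps : ∀ v ∈ (Finset.univ.filter fun v => ¬ T ≤ (pred A G v).card),
        A.col G v ∈ Finset.univ.image (A.col G) :=
      fun v _ => Finset.mem_image_of_mem _ (Finset.mem_univ _)
    rw [Finset.card_eq_sum_card_fiberwise hmaps]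
    unfold OnlineColouring.numColours
    rw [← smul_eq_mul]
    refine Finset.sum_le_card_nsmul _ _ _ fun c _ => ?_
    set F := (Finset.univ.filter fun v => ¬ T ≤ (pred A G v).card).filter
      (fun v => A.col G v = c) with hF
    rcases F.eq_empty_or_nonempty with he | hne
    · rw [he]; simp
    · have hmax := F.max'_mem hne
      set v := F.max' hne with hv
      have hvF := hmax
      rw [hF, Finset.mem_filter, Finset.mem_filter] at hvF
      have hsub : F.erase v ⊆ pred A G v := by
        intro w hw
        rw [Finset.mem_erase] at hw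
        have hwF := hw.2
        rw [hF, Finset.mem_filter] at hwF
        simp only [pred, Finset.mem_filter, Finset.mem_univ, true_and]
        exact ⟨hwF.2.trans hvF.2.symm, lt_of_le_of_ne (F.le_max' w hw.2) hw.1⟩
      have h3 := Finset.card_le_card hsub
      rw [Finset.card_erase_of_mem hmax] at h3
      have h4 := hvF.1.2
      omega
  omega

/-- a power sum over the large subsets of a finite set -/
theorem sum_powerset_le {α : Type} [DecidableEq α] (W : Finset α) (j : ℕ) (y M : ℝ) (hy : 0 < y)
    (hW : (W.card : ℝ) ≤ M) (hM : 0 < M) (h : y * M ≤ 1) :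
    ∑ J ∈ W.powerset.filter (fun J => j ≤ J.card), y ^ J.card ≤ Real.exp 1 * (y * M) ^ j := by
  have h1 : ∑ J ∈ W.powerset.filter (fun J => j ≤ J.card), y ^ J.card
      ≤ ∑ J ∈ W.powerset.filter (fun J => j ≤ J.card), (y * M) ^ j * (1 / M) ^ J.card := by
    refine Finset.sum_le_sum fun J hJ => ?_
    rw [Finset.mem_filter] at hJ
    have e : y ^ J.card = (y * M) ^ J.card * (1 / M) ^ J.card := by
      rw [← mul_pow]
      congr 1
      field_simp
    rw [e]
    refine mul_le_mul_of_nonneg_right ?_ (by positivity)
    exact pow_le_pow_of_le_one (by positivity) h hJ.2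
  have h2 : ∑ J ∈ W.powerset.filter (fun J => j ≤ J.card), (y * M) ^ j * (1 / M) ^ J.card
      ≤ ∑ J ∈ W.powerset, (y * M) ^ j * (1 / M) ^ J.card :=
    Finset.sum_le_sum_of_subset_of_nonneg (Finset.filter_subset _ _)
      (fun J _ _ => by positivity)
  have h3 : ∑ J ∈ W.powerset, (y * M) ^ j * (1 / M) ^ J.card
      = (y * M) ^ j * (1 / M + 1) ^ W.card := by
    rw [← Finset.mul_sum]
    congr 1
    have := Finset.sum_pow_mul_eq_add_pow (1 / M) 1 W
    simpa using this
  have h4 : (1 / M + 1) ^ W.card ≤ Real.exp 1 := by
    have h5 : 1 / M + 1 ≤ Real.exp (1 / M) := Real.add_one_le_exp _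
    calc (1 / M + 1) ^ W.card ≤ (Real.exp (1 / M)) ^ W.card :=
          pow_le_pow_left₀ (by positivity) h5 _
      _ = Real.exp (W.card * (1 / M)) := by rw [← Real.exp_nat_mul]
      _ ≤ Real.exp 1 := by
          apply Real.exp_le_exp.2
          rw [mul_one_div, div_le_one hM]
          exact hW
  calc _ ≤ _ := h1
    _ ≤ _ := h2
    _ = _ := h3
    _ ≤ (y * M) ^ j * Real.exp 1 := mul_le_mul_of_nonneg_left h4 (by positivity)
    _ = _ := mul_comm _ _

theorem card_window_le (i : ℕ) : (window L K n i).card ≤ K * (L + 1) := by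
  classical
  have hmaps : ∀ w ∈ window L K n i, blk L K w ∈ Finset.Ioc i (i + K) := fun w hw => by
    rw [Finset.mem_Ioc]
    exact (Finset.mem_filter.1 hw).2
  rw [Finset.card_eq_sum_card_fiberwise hmaps]
  have hc : (Finset.Ioc i (i + K)).card = K := by
    rw [Nat.card_Ioc]; omega
  conv_rhs => rw [← hc]
  rw [← smul_eq_mul]
  refine Finset.sum_le_card_nsmul _ _ _ fun b _ => ?_
  have : (Finset.range (L + 1)).card = L + 1 := Finset.card_range _
  rw [← this]
  refine Finset.card_le_card_of_injOn (fun v : Fin n => (v : ℕ) % (L + 1)) ?_ ?_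
  · intro v _
    simp only [Finset.coe_range, Set.mem_Iio]
    exact Nat.mod_lt _ (Nat.succ_pos L)
  · intro v hv w hw hvw
    simp only [Finset.coe_filter, Set.mem_ofPred_eq] at hv hw
    have e1 := hv.2
    have e2 := hw.2
    unfold blk at e1 e2
    have e3 : (v : ℕ) / (L + 1) = (w : ℕ) / (L + 1) := by omega
    have e4 : (v : ℕ) % (L + 1) = (w : ℕ) % (L + 1) := hvw
    apply Fin.ext
    rw [← Nat.div_add_mod (v : ℕ) (L + 1), ← Nat.div_add_mod (w : ℕ) (L + 1), e3, e4]

theorem prob_bad {p : ℝ} (h0 : 0 < p) (h1 : p < 1) (r : ℝ) (hr : 0 < r) (hr2 : r ^ 2 = 1 - p)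
    (hK : 1 ≤ K) (hx : r ^ (t - 1) * (K * (L + 1) : ℝ) ≤ 1) :
    Prob p (fun G => Bad A K t j G)
      ≤ (n + K + 2) * ((n + 1) * (Real.exp 1 * (r ^ (t - 1) * (K * (L + 1) : ℝ)) ^ j)) := by
  classical
  have hr1 : r ≤ 1 := by nlinarith
  unfold Bad
  refine (Prob_exists h0 h1 _ _).trans ?_
  have hbound : ∀ i ∈ Finset.range (n + K + 2),
      Prob p (fun G => ∃ o ∈ (Finset.univ : Finset (Option (Fin n))),
        ∃ J ∈ (window L K n i).powerset.filter (fun J => j ≤ J.card),
          early L K i o ∧ (t ≤ (cls A K i G o).card + J.card ∧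
          ∀ x ∈ J, ∀ y ∈ cls A K i G o ∪ J, ¬ G.Adj x y))
      ≤ (n + 1) * (Real.exp 1 * (r ^ (t - 1) * (K * (L + 1) : ℝ)) ^ j) := by
    intro i _
    refine (Prob_exists h0 h1 _ _).trans ?_
    have hb2 : ∀ o ∈ (Finset.univ : Finset (Option (Fin n))),
        Prob p (fun G => ∃ J ∈ (window L K n i).powerset.filter (fun J => j ≤ J.card),
          early L K i o ∧ (t ≤ (cls A K i G o).card + J.card ∧
          ∀ x ∈ J, ∀ y ∈ cls A K i G o ∪ J, ¬ G.Adj x y))
        ≤ Real.exp 1 * (r ^ (t - 1) * (K * (L + 1) : ℝ)) ^ j := by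
      intro o _
      refine (Prob_exists h0 h1 _ _).trans ?_
      refine le_trans (Finset.sum_le_sum (g := fun J => (r ^ (t - 1)) ^ J.card) ?_)
        (sum_powerset_le (window L K n i) j (r ^ (t - 1)) (K * (L + 1)) (by positivity) ?_
          (by positivity) hx)
      · intro J hJ
        rw [Finset.mem_filter, Finset.mem_powerset] at hJ
        by_cases ho : early L K i o
        · have hJb : ∀ x ∈ J, i < blk L K x := fun x hx => by
            have := hJ.1 hx
            rw [window, Finset.mem_filter] at this
            exact this.2.1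
          have hm := master A K h0 h1 ho J hJb (fun S => t ≤ S.card + J.card)
            ((r ^ (t - 1)) ^ J.card) (by positivity) (by
              intro T hT hTc
              have hc := card_pairs hT
              rw [← hr2, ← pow_mul, ← pow_mul, hc, mul_comm J.card]
              refine pow_le_pow_of_le_one hr.le hr1 ?_
              exact Nat.mul_le_mul_right _ (by omega))
          refine le_trans (Prob_mono h0 h1 ?_) hm
          rintro G ⟨_, h⟩
          exact h
        · have hz : Prob p (fun G => early L K i o ∧ (t ≤ (cls A K i G o).card + J.card ∧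
              ∀ x ∈ J, ∀ y ∈ cls A K i G o ∪ J, ¬ G.Adj x y)) = 0 := by
            unfold Prob
            exact Finset.sum_eq_zero fun G _ => if_neg fun h => ho h.1
          rw [hz]
          positivity
      · have := card_window_le (n := n) (L := L) K i
        exact_mod_cast this
    refine (Finset.sum_le_sum hb2).trans (le_of_eq ?_)
    rw [Finset.sum_const, nsmul_eq_mul, Finset.card_univ, Fintype.card_option, Fintype.card_fin]
    push_cast
    ring
  refine (Finset.sum_le_sum hbound).trans (le_of_eq ?_)
  rw [Finset.sum_const, nsmul_eq_mul, Finset.card_range]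
  push_cast
  ring

theorem prob_typeA {p : ℝ} (h0 : 0 < p) (h1 : p < 1) (v : Fin n) :
    Prob p (fun G => TypeA A K t G v) ≤ n * (1 - p) ^ t := by
  classical
  unfold TypeA
  refine (Prob_exists h0 h1 _ _).trans ?_
  have hq : 0 ≤ (1 - p) ^ t := pow_nonneg (by linarith) _
  have hb : ∀ u ∈ (Finset.univ : Finset (Fin n)),
      Prob p (fun G => early L K (blk L K v - 1) (some u) ∧
        (t ≤ (cls A K (blk L K v - 1) G (some u)).card ∧
        ∀ x ∈ ({v} : Finset (Fin n)), ∀ y ∈ cls A K (blk L K v - 1) G (some u) ∪ {v},
          ¬ G.Adj x y)) ≤ (1 - p) ^ t := by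
    intro u _
    by_cases ho : early L K (blk L K v - 1) (some u)
    · have hm := master A K h0 h1 ho {v} (by
          intro x hx
          rw [Finset.mem_singleton] at hx
          subst hx
          have := le_blk (L := L) K x
          omega) (fun S => t ≤ S.card) ((1 - p) ^ t) hq (by
          intro T hT hTc
          have hc := card_pairs hT
          rw [Finset.card_singleton] at hc
          refine pow_le_pow_of_le_one (by linarith) (by linarith) ?_
          omega)
      refine le_trans (Prob_mono h0 h1 ?_) hm
      rintro G ⟨_, h⟩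
      exact h
    · have hz : Prob p (fun G => early L K (blk L K v - 1) (some u) ∧
        (t ≤ (cls A K (blk L K v - 1) G (some u)).card ∧
        ∀ x ∈ ({v} : Finset (Fin n)), ∀ y ∈ cls A K (blk L K v - 1) G (some u) ∪ {v},
          ¬ G.Adj x y)) = 0 := by
        unfold Prob
        exact Finset.sum_eq_zero fun G _ => if_neg fun h => ho h.1
      rw [hz]
      exact hq
  refine (Finset.sum_le_sum hb).trans (le_of_eq ?_)
  rw [Finset.sum_const, nsmul_eq_mul, Finset.card_univ, Fintype.card_fin]

/-- the finite form of the lower bound -/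
theorem finite_bound {p : ℝ} (h0 : 0 < p) (h1 : p < 1) (r : ℝ) (hr : 0 < r)
    (hr2 : r ^ 2 = 1 - p) (ht : 1 ≤ t) (hj : 1 ≤ j) (hK : t ≤ K * j)
    (hx : r ^ (t - 1) * (K * (L + 1) : ℝ) ≤ 1) (M : ℝ) (hM : 0 < M) :
    Prob p (fun G => (A.numColours G : ℝ) * (t + 2 * j) + M < n)
      ≤ (n + K + 2) * ((n + 1) * (Real.exp 1 * (r ^ (t - 1) * (K * (L + 1) : ℝ)) ^ j))
        + n * (n * (1 - p) ^ t) / M := by
  classical
  have hK1 : 1 ≤ K := by
    rcases Nat.eq_zero_or_pos K with h | h
    · rw [h, zero_mul] at hK; omega
    · exact h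
  refine le_trans (Prob_mono (B := fun G => Bad A K t j G ∨
    M < ({v | TypeA A K t G v} : Set (Fin n)).ncard) h0 h1 ?_)
    (le_trans (Prob_or h0 h1 _ _) (add_le_add (prob_bad A K t j h0 h1 r hr hr2 hK1 hx)
      (Prob_markov h0 h1 (fun G v => TypeA A K t G v) M hM _
        (fun v => prob_typeA A K t h0 h1 v))))
  intro G hG
  by_cases hbad : Bad A K t j G
  · exact Or.inl hbad
  · right
    have hc := card_le A (t + 2 * j) G
    have hsub : ((Finset.univ.filter fun v => t + 2 * j ≤ (pred A G v).card).card)
        ≤ ({v | TypeA A K t G v} : Set (Fin n)).ncard := by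
      rw [← Set.ncard_coe_finset]
      refine Set.ncard_le_ncard ?_ (Set.toFinite _)
      intro v hv
      simp only [Finset.coe_filter, Finset.mem_univ, true_and, Set.mem_ofPred_eq] at hv
      exact typeA_of_late A K t j ht hj hK hbad hv
    have hc' : (n : ℝ) ≤ (A.numColours G : ℝ) * (t + 2 * j)
        + (Finset.univ.filter fun v => t + 2 * j ≤ (pred A G v).card).card := by
      exact_mod_cast hc
    have hs' : (((Finset.univ.filter fun v => t + 2 * j ≤ (pred A G v).card).card : ℕ) : ℝ)
        ≤ ({v | TypeA A K t G v} : Set (Fin n)).ncard := by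
      exact_mod_cast hsub
    linarith

end Pool.Agent.H85.Online
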