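import Pool.Agent.H85.Online.Det

/-!
MP_a87669_lc: online colouring algorithms with lookahead do not beat the ratio two.

Every colouring algorithm which colours the vertices of `G(n,p)` one after the other, irrevocably,
the colour of the vertex `t` being an arbitrary function of the graph induced on the first
`t + L` vertices, uses at least `(1 - ε) n / (θ log_b n)` colours with probability at least
`1 - ε`, where `b = 1/(1-p)`, `L ≤ n^δ` and `θ = max 1 (2 δ)`, for all `n` large enough.
-/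

set_option autoImplicit false

namespace Pool.Agent.Results.MP_a87669_lc.LookaheadColouring

open Pool.Agent.H85.Online Filter

theorem result (p : ℝ) (h0 : 0 < p) (h1 : p < 1) (δ : ℝ) (hδ : 0 ≤ δ) (ε : ℝ) (hε : 0 < ε) :
    ∃ N : ℕ, ∀ n : ℕ, N ≤ n → ∀ L : ℕ, (L : ℝ) ≤ (n : ℝ) ^ δ → ∀ A : OnlineColouring n L,
      Prob p (fun G => (A.numColours G : ℝ) <
        (1 - ε) * (n / (max 1 (2 * δ) * Real.logb (1 / (1 - p)) n))) ≤ ε := by
  set θ : ℝ := max 1 (2 * δ) with hθ
  have hθ1 : 1 ≤ θ := le_max_left _ _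
  have hθδ : 2 * δ ≤ θ := le_max_right _ _
  set a : ℝ := -Real.log (1 - p) with ha
  have ha0 : 0 < a := by
    have := Real.log_neg (show 0 < 1 - p by linarith) (show 1 - p < 1 by linarith)
    rw [ha]; linarith
  have hea : Real.exp (-a) = 1 - p := by
    rw [ha, neg_neg, Real.exp_log (by linarith)]
  set r : ℝ := Real.exp (-a / 2) with hr
  have hr0 : 0 < r := Real.exp_pos _
  have hr2 : r ^ 2 = 1 - p := by
    rw [hr, ← Real.exp_nat_mul, ← hea]
    congr 1
    push_cast
    ring
  set η : ℝ := ε / 8 with hη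
  have hη0 : 0 < η := by rw [hη]; positivity
  set K : ℕ := ⌈(θ + ε / 4 + 1) / η⌉₊ with hK
  set C : ℝ := 2 * K * Real.exp (a / 2) with hC
  have hK0 : (θ + ε / 4 + 1) / η ≤ K := Nat.le_ceil _
  have hKpos : (0 : ℝ) < K := lt_of_lt_of_le (by positivity) hK0
  have hCpos : 0 < C := by rw [hC]; positivity
  set D : ℝ := 2 * Real.exp 1 * (K + 4) with hD
  have hDpos : 0 < D := by rw [hD]; positivity
  have hlog : Tendsto (fun n : ℕ => Real.log (n : ℝ)) atTop atTop :=
    Real.tendsto_log_atTop.comp tendsto_natCast_atTop_atTop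
  have hev := ((hlog.eventually_ge_atTop a).and (hlog.eventually_ge_atTop (12 / ε * a))).and
    (((hlog.eventually_ge_atTop (16 / ε * Real.log C)).and
      (hlog.eventually_ge_atTop (3 * (16 * a / (ε * η))))).and
    (((hlog.eventually_ge_atTop (Real.log (2 * D / ε))).and
      (hlog.eventually_ge_atTop (4 / ε * Real.log (8 / ε ^ 2)))).and
    ((hlog.eventually_ge_atTop 1).and (eventually_ge_atTop 1))))
  obtain ⟨N, hN⟩ := eventually_atTop.1 hev
  refine ⟨N, fun n hn L hL A => ?_⟩
  obtain ⟨⟨c1, c2⟩, ⟨c3, c4⟩, ⟨c5, c6⟩, c7, c8⟩ := hN n hn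
  have hn1 : (1 : ℝ) ≤ n := by exact_mod_cast c8
  have hn0 : (0 : ℝ) < n := by linarith
  set lam : ℝ := Real.log n with hlam
  have hexp : Real.exp lam = n := Real.exp_log hn0
  set ℓ : ℝ := Real.logb (1 / (1 - p)) n with hℓ
  have hℓa : a * ℓ = lam := by
    rw [hℓ, Real.logb, one_div, Real.log_inv, ← ha, hlam]
    field_simp
  have hℓ1 : 1 ≤ ℓ := by
    by_contra h
    push Not at h
    have : a * ℓ < a * 1 := mul_lt_mul_of_pos_left h ha0
    linarith
  have hℓ12 : 12 / ε ≤ ℓ := by
    by_contra h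
    push Not at h
    have : a * ℓ < a * (12 / ε) := mul_lt_mul_of_pos_left h ha0
    linarith
  set t : ℕ := ⌈(θ + ε / 4) * ℓ⌉₊ with ht
  set j : ℕ := ⌈η * ℓ⌉₊ with hj
  have ht0 : (θ + ε / 4) * ℓ ≤ t := Nat.le_ceil _
  have ht1 : (t : ℝ) < (θ + ε / 4) * ℓ + 1 := Nat.ceil_lt_add_one (by positivity)
  have hj0 : η * ℓ ≤ j := Nat.le_ceil _
  have hj1 : (j : ℝ) < η * ℓ + 1 := Nat.ceil_lt_add_one (by positivity)
  have htpos : 1 ≤ t := Nat.one_le_iff_ne_zero.2 (by
    intro h
    rw [h] at ht0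
    have : 0 < (θ + ε / 4) * ℓ := by positivity
    simp only [Nat.cast_zero] at ht0
    linarith)
  have hjpos : 1 ≤ j := Nat.one_le_iff_ne_zero.2 (by
    intro h
    rw [h] at hj0
    have : 0 < η * ℓ := by positivity
    simp only [Nat.cast_zero] at hj0
    linarith)
  have htKj : t ≤ K * j := by
    have h2 : (t : ℝ) ≤ K * j := by
      have e1 : (θ + ε / 4 + 1) / η * (η * ℓ) ≤ K * j :=
        mul_le_mul hK0 hj0 (by positivity) hKpos.le
      have e2 : (θ + ε / 4 + 1) / η * (η * ℓ) = (θ + ε / 4 + 1) * ℓ := by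
        field_simp
      rw [e2] at e1
      linarith
    exact_mod_cast h2
  -- the size of `x`
  have hrt : r ^ (t - 1) ≤ Real.exp (a / 2) * Real.exp (-(θ + ε / 4) * lam / 2) := by
    rw [hr, ← Real.exp_nat_mul, ← Real.exp_add]
    apply Real.exp_le_exp.2
    have e : ((t - 1 : ℕ) : ℝ) = t - 1 := by
      rw [Nat.cast_sub htpos, Nat.cast_one]
    rw [e, ← hℓa]
    have e1 := mul_le_mul_of_nonneg_left ht0 ha0.le
    linarith
  have hLn : (L : ℝ) + 1 ≤ 2 * Real.exp (δ * lam) := by
    have e1 : (n : ℝ) ^ δ = Real.exp (δ * lam) := by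
      rw [Real.rpow_def_of_pos hn0, mul_comm]
    have e2 : 1 ≤ Real.exp (δ * lam) := Real.one_le_exp (by positivity)
    rw [e1] at hL
    linarith
  set x : ℝ := r ^ (t - 1) * (K * (L + 1) : ℝ) with hx
  have hx0 : 0 ≤ x := by rw [hx]; positivity
  have hx1 : x ≤ Real.exp (-(ε / 16) * lam) := by
    have e1 : x ≤ (Real.exp (a / 2) * Real.exp (-(θ + ε / 4) * lam / 2))
        * (K * (2 * Real.exp (δ * lam))) := by
      rw [hx]
      refine mul_le_mul hrt ?_ (by positivity) (by positivity)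
      exact mul_le_mul_of_nonneg_left hLn hKpos.le
    have e2 : (Real.exp (a / 2) * Real.exp (-(θ + ε / 4) * lam / 2))
        * (K * (2 * Real.exp (δ * lam)))
        = C * Real.exp (-(θ + ε / 4) * lam / 2 + δ * lam) := by
      rw [hC, Real.exp_add]; ring
    have e3 : C ≤ Real.exp (ε / 16 * lam) := by
      rw [← Real.log_le_iff_le_exp hCpos]
      rw [div_mul_eq_mul_div, div_le_iff₀ hε] at c3
      linarith
    have e4 : Real.exp (-(θ + ε / 4) * lam / 2 + δ * lam) ≤ Real.exp (-(ε / 8) * lam) := by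
      apply Real.exp_le_exp.2
      have e5 := mul_le_mul_of_nonneg_right hθδ (show (0 : ℝ) ≤ lam by linarith)
      linarith
    calc x ≤ _ := e1
      _ = _ := e2
      _ ≤ Real.exp (ε / 16 * lam) * Real.exp (-(ε / 8) * lam) :=
          mul_le_mul e3 e4 (by positivity) (by positivity)
      _ = Real.exp (-(ε / 16) * lam) := by
          rw [← Real.exp_add]; congr 1; ring
  have hlam0 : 0 ≤ lam := by linarith
  have hx2 : x ≤ 1 := by
    refine hx1.trans (Real.exp_le_one_iff.2 ?_)
    have e1 : 0 ≤ ε * lam := mul_nonneg hε.le hlam0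
    linarith
  have hxj : x ^ j ≤ Real.exp (-3 * lam) := by
    calc x ^ j ≤ Real.exp (-(ε / 16) * lam) ^ j := pow_le_pow_left₀ hx0 hx1 _
      _ = Real.exp (j * (-(ε / 16) * lam)) := by rw [← Real.exp_nat_mul]
      _ ≤ Real.exp (-3 * lam) := by
          apply Real.exp_le_exp.2
          have e1 : 3 ≤ ε / 16 * j := by
            have e2 : 3 * 16 ≤ ε * (η * ℓ) := by
              rw [mul_div_assoc', div_le_iff₀ (by positivity), ← hℓa] at c4
              have e3 : a * (3 * 16) ≤ a * (ε * (η * ℓ)) := by linarith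
              exact le_of_mul_le_mul_left e3 ha0
            have e4 := mul_le_mul_of_nonneg_left hj0 hε.le
            linarith
          have e5 := mul_le_mul_of_nonneg_right e1 hlam0
          linarith
  have hM : 0 < ε / 4 * n := by positivity
  have hfin := finite_bound A K t j h0 h1 r hr0 hr2 htpos hjpos htKj hx2 (ε / 4 * n) hM
  -- first term
  have hT1 : (n + K + 2) * ((n + 1) * (Real.exp 1 * x ^ j)) ≤ ε / 2 := by
    have e1 : (n + K + 2 : ℝ) ≤ (K + 4) * n := by
      have e5 := mul_le_mul_of_nonneg_left hn1 hKpos.le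
      linarith
    have e2 : (n + 1 : ℝ) ≤ 2 * n := by linarith
    calc (n + K + 2) * ((n + 1) * (Real.exp 1 * x ^ j))
        ≤ ((K + 4) * n) * ((2 * n) * (Real.exp 1 * Real.exp (-3 * lam))) := by
          gcongr
      _ = D * (Real.exp lam * Real.exp lam * Real.exp (-3 * lam)) := by
          rw [hD, hexp]; ring
      _ = D * Real.exp (-lam) := by
          rw [← Real.exp_add, ← Real.exp_add]; congr 2; ring
      _ ≤ ε / 2 := by
          have e3 : 2 * D / ε ≤ Real.exp lam := by
            rw [← Real.log_le_iff_le_exp (by positivity)]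
            exact c5
          rw [Real.exp_neg, ← div_eq_mul_inv, div_le_iff₀ (Real.exp_pos _)]
          rw [div_le_iff₀ hε] at e3
          linarith
  -- second term
  have hT2 : n * (n * (1 - p) ^ t) / (ε / 4 * n) ≤ ε / 2 := by
    have e1 : (1 - p) ^ t ≤ Real.exp (-(1 + ε / 4) * lam) := by
      rw [← hea, ← Real.exp_nat_mul]
      apply Real.exp_le_exp.2
      rw [← hℓa]
      have e6 : (1 + ε / 4) * ℓ ≤ t := by
        have e7 := mul_le_mul_of_nonneg_right hθ1 (show (0 : ℝ) ≤ ℓ by linarith)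
        linarith
      have e8 := mul_le_mul_of_nonneg_left e6 ha0.le
      linarith
    have e2 : n * (n * (1 - p) ^ t) / (ε / 4 * n) = (n * (1 - p) ^ t) * (4 / ε) := by
      field_simp
    have e3 : n * (1 - p) ^ t ≤ Real.exp (-(ε / 4) * lam) := by
      calc (n : ℝ) * (1 - p) ^ t ≤ n * Real.exp (-(1 + ε / 4) * lam) :=
            mul_le_mul_of_nonneg_left e1 hn0.le
        _ = Real.exp lam * Real.exp (-(1 + ε / 4) * lam) := by rw [hexp]
        _ = Real.exp (-(ε / 4) * lam) := by
            rw [← Real.exp_add]; congr 1; ring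
    have e4 : 8 / ε ^ 2 ≤ Real.exp (ε / 4 * lam) := by
      rw [← Real.log_le_iff_le_exp (by positivity)]
      rw [div_mul_eq_mul_div, div_le_iff₀ hε] at c6
      linarith
    have e5 : Real.exp (-(ε / 4) * lam) ≤ ε ^ 2 / 8 := by
      have : -(ε / 4) * lam = -(ε / 4 * lam) := by ring
      rw [this, Real.exp_neg]
      rw [inv_le_comm₀ (Real.exp_pos _) (by positivity), inv_div]
      exact e4
    rw [e2]
    calc n * (1 - p) ^ t * (4 / ε) ≤ ε ^ 2 / 8 * (4 / ε) :=
          mul_le_mul_of_nonneg_right (e3.trans e5) (by positivity)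
      _ = ε / 2 := by field_simp; ring
  refine le_trans (Prob_mono h0 h1 ?_) (hfin.trans (by linarith))
  intro G hG
  rcases le_or_gt 1 ε with hε1 | hε1
  · exfalso
    have e1 : (1 - ε) * (n / (θ * ℓ)) ≤ 0 :=
      mul_nonpos_of_nonpos_of_nonneg (by linarith) (by positivity)
    have e2 : (0 : ℝ) ≤ A.numColours G := Nat.cast_nonneg _
    linarith
  · have hT0 : (0 : ℝ) < t + 2 * j := by positivity
    have e1 : (t : ℝ) + 2 * j ≤ (θ + ε / 2) * ℓ + 3 := by
      rw [hη] at hj1
      linarith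
    have e2 : (A.numColours G : ℝ) * (t + 2 * j) < (1 - ε) * (n / (θ * ℓ)) * (t + 2 * j) :=
      mul_lt_mul_of_pos_right hG hT0
    have e3 : (1 - ε) * (n / (θ * ℓ)) * (t + 2 * j) ≤ (1 - ε / 4) * n := by
      have e4 : (1 - ε) * (t + 2 * j) ≤ (1 - ε / 4) * (θ * ℓ) := by
        have e5 : (1 - ε) * (t + 2 * j) ≤ (1 - ε) * ((θ + ε / 2) * ℓ + 3) :=
          mul_le_mul_of_nonneg_left e1 (by linarith)
        have e6 : 12 ≤ ε * ℓ := by
          rw [div_le_iff₀ hε] at hℓ12
          linarith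
        have e7 : (1 - ε) * ((θ + ε / 2) * ℓ) ≤ θ * ℓ - ε * ℓ * θ / 2 := by
          have f1 : 0 ≤ ε * ℓ := by positivity
          have f2 := mul_le_mul_of_nonneg_left hθ1 f1
          have f3 : 0 ≤ ε * (ε * ℓ) := by positivity
          linarith
        have f1 := mul_le_mul_of_nonneg_left hθ1 (show 0 ≤ ε * ℓ by positivity)
        linarith
      have e8 : (1 - ε) * (n / (θ * ℓ)) * (t + 2 * j)
          = ((1 - ε) * (t + 2 * j)) / (θ * ℓ) * n := by
        field_simp
      rw [e8]
      refine mul_le_mul_of_nonneg_right ?_ hn0.le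
      rw [div_le_iff₀ (by positivity)]
      exact e4
    linarith

end Pool.Agent.Results.MP_a87669_lc.LookaheadColouring
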