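import Mathlib

/-!
The random graph `G(n,p)` as an explicit finite probability space, and the one fact about
independence that is needed: if a property does not depend on the pairs in `F`, then the
probability that it holds and no pair of `F` is an edge is `(1-p)^|F|` times its probability.
-/

set_option autoImplicit false

namespace Pool.Agent.H85.Online

open Finset

/-- the probability of the single graph `G` in the random graph `G(n,p)` on `Fin n`:
`p` to the number of edges times `1-p` to the number of non-edges -/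
noncomputable def weight (p : ℝ) {n : ℕ} (G : SimpleGraph (Fin n)) : ℝ :=
  p ^ G.edgeSet.ncard * (1 - p) ^ (n.choose 2 - G.edgeSet.ncard)

open Classical in
/-- the probability that `G(n,p)` has the property `A` -/
noncomputable def Prob (p : ℝ) {n : ℕ} (A : SimpleGraph (Fin n) → Prop) : ℝ :=
  ∑ G : SimpleGraph (Fin n), if A G then weight p G else 0

variable {p : ℝ} {n : ℕ}

theorem weight_nonneg (h0 : 0 < p) (h1 : p < 1) (G : SimpleGraph (Fin n)) : 0 ≤ weight p G :=
  mul_nonneg (pow_nonneg h0.le _) (pow_nonneg (by linarith) _)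

theorem Prob_nonneg (h0 : 0 < p) (h1 : p < 1) (A : SimpleGraph (Fin n) → Prop) :
    0 ≤ Prob p A := by
  classical
  refine Finset.sum_nonneg fun G _ => ?_
  split_ifs
  · exact weight_nonneg h0 h1 G
  · exact le_rfl

theorem Prob_mono (h0 : 0 < p) (h1 : p < 1) {A B : SimpleGraph (Fin n) → Prop}
    (h : ∀ G, A G → B G) : Prob p A ≤ Prob p B := by
  classical
  refine Finset.sum_le_sum fun G _ => ?_
  by_cases hA : A G
  · rw [if_pos hA, if_pos (h G hA)]
  · rw [if_neg hA]
    split_ifs
    · exact weight_nonneg h0 h1 G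
    · exact le_rfl

theorem Prob_congr {A B : SimpleGraph (Fin n) → Prop} (h : ∀ G, A G ↔ B G) :
    Prob p A = Prob p B := by
  have : A = B := funext fun G => propext (h G)
  rw [this]

theorem Prob_or (h0 : 0 < p) (h1 : p < 1) (A B : SimpleGraph (Fin n) → Prop) :
    Prob p (fun G => A G ∨ B G) ≤ Prob p A + Prob p B := by
  classical
  unfold Prob
  rw [← Finset.sum_add_distrib]
  refine Finset.sum_le_sum fun G _ => ?_
  have hw := weight_nonneg h0 h1 G
  by_cases hA : A G
  · rw [if_pos (Or.inl hA), if_pos hA]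
    split_ifs <;> linarith
  · by_cases hB : B G
    · rw [if_pos (Or.inr hB), if_neg hA, if_pos hB]
      linarith
    · rw [if_neg (by tauto), if_neg hA, if_neg hB]
      linarith

/-- union bound -/
theorem Prob_exists (h0 : 0 < p) (h1 : p < 1) {ι : Type} (s : Finset ι)
    (A : ι → SimpleGraph (Fin n) → Prop) :
    Prob p (fun G => ∃ i ∈ s, A i G) ≤ ∑ i ∈ s, Prob p (A i) := by
  classical
  induction s using Finset.induction_on with
  | empty => simp [Prob]
  | insert a s ha ih =>
    rw [Finset.sum_insert ha]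
    refine le_trans (Prob_mono (B := fun G => A a G ∨ ∃ i ∈ s, A i G) h0 h1 ?_)
      (le_trans (Prob_or h0 h1 _ _) (by linarith))
    rintro G ⟨i, hi, hA⟩
    rcases Finset.mem_insert.1 hi with rfl | hi
    · exact Or.inl hA
    · exact Or.inr ⟨i, hi, hA⟩

/-- partition according to the value of a function -/
theorem Prob_fiber {ι : Type} [Fintype ι] (f : SimpleGraph (Fin n) → ι)
    (A : SimpleGraph (Fin n) → Prop) :
    Prob p A = ∑ i : ι, Prob p (fun G => f G = i ∧ A G) := by
  classical
  unfold Prob
  rw [Finset.sum_comm]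
  refine Finset.sum_congr rfl fun G _ => ?_
  rw [Finset.sum_eq_single (f G)]
  · simp
  · intro b _ hb
    rw [if_neg]
    rintro ⟨h, _⟩
    exact hb h.symm
  · intro h
    exact absurd (Finset.mem_univ _) h

theorem ncard_edgeSet_le (G : SimpleGraph (Fin n)) : G.edgeSet.ncard ≤ n.choose 2 := by
  classical
  have h := G.card_edgeFinset_le_card_choose_two
  rw [Fintype.card_fin] at h
  rwa [← SimpleGraph.coe_edgeFinset, Set.ncard_coe_finset]

theorem edgeSet_sup_edge (G : SimpleGraph (Fin n)) {u v : Fin n} (huv : u ≠ v) :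
    (G ⊔ SimpleGraph.edge u v).edgeSet = insert s(u, v) G.edgeSet := by
  ext e
  induction e using Sym2.ind with
  | _ x y =>
  simp only [SimpleGraph.mem_edgeSet, SimpleGraph.sup_adj, SimpleGraph.edge_adj,
    Set.mem_insert_iff, Sym2.eq_iff]
  constructor
  · rintro (h | ⟨h, _⟩)
    · exact Or.inr h
    · left
      tauto
  · rintro (h | h)
    · right
      refine ⟨by tauto, ?_⟩
      rcases h with ⟨rfl, rfl⟩ | ⟨rfl, rfl⟩
      · exact huv
      · exact huv.symm
    · exact Or.inl h

theorem weight_sup_edge (G : SimpleGraph (Fin n)) {u v : Fin n} (huv : u ≠ v)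
    (hG : ¬ G.Adj u v) : weight p (G ⊔ SimpleGraph.edge u v) * (1 - p) = weight p G * p := by
  have hne : s(u, v) ∉ G.edgeSet := by simpa using hG
  have hc : (G ⊔ SimpleGraph.edge u v).edgeSet.ncard = G.edgeSet.ncard + 1 := by
    rw [edgeSet_sup_edge G huv, Set.ncard_insert_of_notMem hne (Set.toFinite _)]
  have hle := ncard_edgeSet_le (G ⊔ SimpleGraph.edge u v)
  rw [hc] at hle
  unfold weight
  rw [hc]
  have e : n.choose 2 - G.edgeSet.ncard = (n.choose 2 - (G.edgeSet.ncard + 1)) + 1 := by omega
  rw [e, pow_succ, pow_succ]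
  ring

/-- adding an edge does not affect the property -/
def Free (A : SimpleGraph (Fin n) → Prop) (u v : Fin n) : Prop :=
  ∀ G, A (G ⊔ SimpleGraph.edge u v) ↔ A G

theorem sup_edge_del (G : SimpleGraph (Fin n)) {u v : Fin n} (hG : G.Adj u v) :
    G.deleteEdges {s(u, v)} ⊔ SimpleGraph.edge u v = G := by
  ext x y
  simp only [SimpleGraph.sup_adj, SimpleGraph.deleteEdges_adj, SimpleGraph.edge_adj,
    Set.mem_singleton_iff]
  constructor
  · rintro (⟨h, _⟩ | ⟨h | h, hne⟩)
    · exact h
    · rw [h.1, h.2]; exact hG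
    · rw [h.1, h.2]; exact hG.symm
  · intro h
    by_cases he : s(x, y) = s(u, v)
    · right
      refine ⟨?_, h.ne⟩
      rcases Sym2.eq_iff.1 he with ⟨a, b⟩ | ⟨a, b⟩
      · left; exact ⟨a, b⟩
      · right; exact ⟨a, b⟩
    · left; exact ⟨h, he⟩

theorem del_sup_edge (G : SimpleGraph (Fin n)) {u v : Fin n} (hG : ¬ G.Adj u v) :
    (G ⊔ SimpleGraph.edge u v).deleteEdges {s(u, v)} = G := by
  ext x y
  simp only [SimpleGraph.sup_adj, SimpleGraph.deleteEdges_adj, SimpleGraph.edge_adj,
    Set.mem_singleton_iff]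
  constructor
  · rintro ⟨h | ⟨h | h, _⟩, hne⟩
    · exact h
    · exact absurd (by rw [h.1, h.2]) hne
    · exact absurd (by rw [h.1, h.2, Sym2.eq_swap]) hne
  · intro h
    refine ⟨Or.inl h, ?_⟩
    intro he
    rcases Sym2.eq_iff.1 he with ⟨a, b⟩ | ⟨a, b⟩
    · subst a; subst b; exact hG h
    · subst a; subst b; exact hG h.symm

/-- independence, one pair -/
theorem Prob_and_not_adj (A : SimpleGraph (Fin n) → Prop)
    {u v : Fin n} (huv : u ≠ v) (hA : Free A u v) :
    Prob p (fun G => A G ∧ ¬ G.Adj u v) = (1 - p) * Prob p A := by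
  classical
  have hsplit : Prob p A = Prob p (fun G => A G ∧ ¬ G.Adj u v)
      + Prob p (fun G => A G ∧ G.Adj u v) := by
    unfold Prob
    rw [← Finset.sum_add_distrib]
    refine Finset.sum_congr rfl fun G _ => ?_
    by_cases h : A G <;> by_cases h' : G.Adj u v <;> simp [h, h']
  have hbij : Prob p (fun G => A G ∧ G.Adj u v) * (1 - p)
      = Prob p (fun G => A G ∧ ¬ G.Adj u v) * p := by
    unfold Prob
    rw [Finset.sum_mul, Finset.sum_mul]
    rw [← Finset.sum_filter_add_sum_filter_not (s := Finset.univ)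
      (p := fun G : SimpleGraph (Fin n) => A G ∧ G.Adj u v)]
    rw [← Finset.sum_filter_add_sum_filter_not (s := Finset.univ)
      (p := fun G : SimpleGraph (Fin n) => A G ∧ ¬ G.Adj u v)]
    rw [Finset.sum_eq_zero (s := Finset.univ.filter
        (fun G : SimpleGraph (Fin n) => ¬ (A G ∧ G.Adj u v))),
      Finset.sum_eq_zero (s := Finset.univ.filter
        (fun G : SimpleGraph (Fin n) => ¬ (A G ∧ ¬ G.Adj u v))), add_zero, add_zero]
    · symm
      refine Finset.sum_bij' (fun G _ => G ⊔ SimpleGraph.edge u v)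
        (fun G _ => G.deleteEdges {s(u, v)}) ?_ ?_ ?_ ?_ ?_
      · intro G hG
        rw [Finset.mem_filter] at hG ⊢
        refine ⟨Finset.mem_univ _, (hA G).2 hG.2.1, ?_⟩
        rw [SimpleGraph.sup_adj, SimpleGraph.edge_adj]
        exact Or.inr ⟨Or.inl ⟨rfl, rfl⟩, huv⟩
      · intro G hG
        rw [Finset.mem_filter] at hG ⊢
        refine ⟨Finset.mem_univ _, ?_, ?_⟩
        · rw [← hA, sup_edge_del G hG.2.2]
          exact hG.2.1
        · simp
      · intro G hG
        rw [Finset.mem_filter] at hG
        exact del_sup_edge G hG.2.2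
      · intro G hG
        rw [Finset.mem_filter] at hG
        exact sup_edge_del G hG.2.2
      · intro G hG
        rw [Finset.mem_filter] at hG
        have h2 : A (G ⊔ SimpleGraph.edge u v) ∧ (G ⊔ SimpleGraph.edge u v).Adj u v := by
          refine ⟨(hA G).2 hG.2.1, ?_⟩
          rw [SimpleGraph.sup_adj, SimpleGraph.edge_adj]
          exact Or.inr ⟨Or.inl ⟨rfl, rfl⟩, huv⟩
        rw [if_pos hG.2, if_pos h2]
        exact (weight_sup_edge G huv hG.2.2).symm
    · intro G hG
      rw [Finset.mem_filter] at hG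
      rw [if_neg hG.2, zero_mul]
    · intro G hG
      rw [Finset.mem_filter] at hG
      rw [if_neg hG.2, zero_mul]
  have : Prob p A * (1 - p) = Prob p (fun G => A G ∧ ¬ G.Adj u v) := by
    rw [hsplit, add_mul, hbij]
    ring
  rw [← this]
  ring

/-- independence, a finite set of pairs -/
theorem Prob_and_no_edges (A : SimpleGraph (Fin n) → Prop)
    (F : Finset (Sym2 (Fin n))) (hF : ∀ u v, s(u, v) ∈ F → u ≠ v ∧ Free A u v) :
    Prob p (fun G => A G ∧ ∀ e ∈ F, e ∉ G.edgeSet) = (1 - p) ^ F.card * Prob p A := by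
  classical
  induction F using Finset.induction_on with
  | empty => simp [Prob]
  | insert e F he ih =>
    induction e using Sym2.ind with
    | _ u v =>
    obtain ⟨huv, hfree⟩ := hF u v (Finset.mem_insert_self _ _)
    have ih' := ih (fun a b hab => hF a b (Finset.mem_insert_of_mem hab))
    have hfree2 : Free (fun G => A G ∧ ∀ e ∈ F, e ∉ G.edgeSet) u v := by
      intro G
      refine and_congr (hfree G) ?_
      refine forall_congr' fun e => forall_congr' fun heF => ?_
      rw [edgeSet_sup_edge G huv, Set.mem_insert_iff]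
      have : e ≠ s(u, v) := by
        rintro rfl
        exact he heF
      simp [this]
    have h := Prob_and_not_adj (p := p) _ huv hfree2
    rw [Finset.card_insert_of_notMem he, pow_succ, mul_comm ((1 - p) ^ F.card), mul_assoc, ← ih',
      ← h]
    refine Prob_congr fun G => ?_
    simp only [Finset.forall_mem_insert, SimpleGraph.mem_edgeSet]
    tauto

theorem Prob_true (h1 : p < 1) : Prob p (fun _ : SimpleGraph (Fin n) => True) = 1 := by
  classical
  set F : Finset (Sym2 (Fin n)) := (⊤ : SimpleGraph (Fin n)).edgeFinset with hFdef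
  have h := Prob_and_no_edges (p := p) (fun _ : SimpleGraph (Fin n) => True) F (by
    intro u v huv
    refine ⟨?_, fun G => Iff.rfl⟩
    rw [hFdef, SimpleGraph.mem_edgeFinset, SimpleGraph.mem_edgeSet, SimpleGraph.top_adj] at huv
    exact huv)
  have hc : F.card = n.choose 2 := by
    rw [hFdef, SimpleGraph.card_edgeFinset_top_eq_card_choose_two, Fintype.card_fin]
  have hL : Prob p (fun G : SimpleGraph (Fin n) => True ∧ ∀ e ∈ F, e ∉ G.edgeSet)
      = (1 - p) ^ (n.choose 2) := by
    unfold Prob
    rw [Finset.sum_eq_single (⊥ : SimpleGraph (Fin n))]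
    · rw [if_pos]
      · simp [weight]
      · simp
    · intro G _ hG
      rw [if_neg]
      rintro ⟨-, h⟩
      apply hG
      rw [← SimpleGraph.edgeSet_eq_empty, Set.eq_empty_iff_forall_notMem]
      intro e he
      refine h e ?_ he
      rw [hFdef, SimpleGraph.mem_edgeFinset]
      exact SimpleGraph.edgeSet_mono le_top he
    · intro h
      exact absurd (Finset.mem_univ _) h
  rw [hL, hc] at h
  have hpos : (1 - p) ^ (n.choose 2) ≠ 0 := pow_ne_zero _ (by linarith)
  have := mul_left_cancel₀ hpos ((mul_one _).trans h)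
  exact this.symm

theorem Prob_le_one (h0 : 0 < p) (h1 : p < 1) (A : SimpleGraph (Fin n) → Prop) :
    Prob p A ≤ 1 := by
  rw [← Prob_true (p := p) (n := n) h1]
  exact Prob_mono h0 h1 (fun _ _ => trivial)

/-- Markov's inequality for the number of vertices with a property -/
theorem Prob_markov (h0 : 0 < p) (h1 : p < 1) (B : SimpleGraph (Fin n) → Fin n → Prop) (M : ℝ)
    (hM : 0 < M) (c : ℝ) (hc : ∀ v, Prob p (fun G => B G v) ≤ c) :
    Prob p (fun G => M < ({v | B G v} : Set (Fin n)).ncard) ≤ n * c / M := by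
  classical
  rw [le_div_iff₀ hM]
  have hsum : ∑ v : Fin n, Prob p (fun G => B G v) ≤ n * c := by
    refine (Finset.sum_le_sum fun v _ => hc v).trans ?_
    simp
  refine le_trans ?_ hsum
  unfold Prob
  rw [Finset.sum_comm, Finset.sum_mul]
  refine Finset.sum_le_sum fun G _ => ?_
  have hw := weight_nonneg h0 h1 G
  have hR : ∑ v : Fin n, (if B G v then weight p G else 0)
      = ({v | B G v} : Set (Fin n)).ncard * weight p G := by
    rw [← Finset.sum_filter, Finset.sum_const, nsmul_eq_mul]
    congr 2
    rw [Set.ncard_eq_toFinset_card']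
    congr 1
    ext v
    simp
  rw [hR]
  split_ifs with h
  · rw [mul_comm]
    exact mul_le_mul_of_nonneg_right h.le hw
  · rw [zero_mul]
    positivity

end Pool.Agent.H85.Online
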